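import Pool.Agent.H31.LEV.Targets

/-!
# The Blaschke factor avoids the negative real axis (row BLL of the project LEV)
-/

set_option autoImplicit false

open Complex Filter Topology Set

namespace Pool.Agent.H75.LEV

open Pool.Agent.H31.LEV

lemma slit_of {ζ ζ₀ : ℂ} (h0 : 0 < ζ₀.im) (h1 : 0 ≤ ζ.im) (h2 : ζ.re = ζ₀.re → ζ₀.im < ζ.im) :
    (ζ - ζ₀) / (ζ - (starRingEnd ℂ) ζ₀) ∈ slitPlane := by
  have him : (ζ - (starRingEnd ℂ) ζ₀).im = ζ.im + ζ₀.im := by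
    rw [sub_im, conj_im]
    ring
  have hre : (ζ - (starRingEnd ℂ) ζ₀).re = ζ.re - ζ₀.re := by
    rw [sub_re, conj_re]
  have hd : ζ - (starRingEnd ℂ) ζ₀ ≠ 0 := by
    intro h
    rw [h] at him
    simp only [zero_im] at him
    linarith
  have hN : 0 < normSq (ζ - (starRingEnd ℂ) ζ₀) := normSq_pos.2 hd
  rw [mem_slitPlane_iff]
  by_cases hp : ζ.re = ζ₀.re
  · left
    have h3 := h2 hp
    rw [div_re, hre, him, sub_re, sub_im, hp]
    have h4 : 0 < (ζ.im - ζ₀.im) * (ζ.im + ζ₀.im) := mul_pos (by linarith) (by linarith)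
    have h5 : (ζ₀.re - ζ₀.re) * (ζ₀.re - ζ₀.re) / normSq (ζ - (starRingEnd ℂ) ζ₀) = 0 := by
      rw [sub_self, zero_mul, zero_div]
    rw [h5, zero_add]
    exact div_pos h4 hN
  · right
    rw [div_im, hre, him, sub_re, sub_im, ← sub_div]
    apply div_ne_zero _ hN.ne'
    have h3 : (ζ.im - ζ₀.im) * (ζ.re - ζ₀.re) - (ζ.re - ζ₀.re) * (ζ.im + ζ₀.im) =
        -2 * (ζ.re - ζ₀.re) * ζ₀.im := by ring
    rw [h3]
    exact mul_ne_zero (mul_ne_zero (by norm_num) (sub_ne_zero.2 hp)) h0.ne'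

lemma cz_eq (a t₀ U : ℝ) (s : ℂ) : cz a t₀ U s =
    ((Real.cosh (Real.pi * (s.re - a) / U) * Real.cos (Real.pi * (s.im - t₀) / U) : ℝ) : ℂ) +
      ((Real.sinh (Real.pi * (s.re - a) / U) * Real.sin (Real.pi * (s.im - t₀) / U) : ℝ) : ℂ) *
        I := by
  unfold cz pt
  have h1 : Real.pi * (s - ((a : ℂ) + (t₀ : ℂ) * I)) / U =
      ((Real.pi * (s.re - a) / U : ℝ) : ℂ) + ((Real.pi * (s.im - t₀) / U : ℝ) : ℂ) * I := by
    push_cast
    have h2 : s = (s.re : ℂ) + (s.im : ℂ) * I := (re_add_im s).symm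
    rw [h2]
    simp only [add_re, ofReal_re, mul_re, I_re, mul_zero, ofReal_im, I_im, mul_one, sub_self,
      add_zero, add_im, mul_im, zero_add]
    ring
  rw [h1, cosh_add, cosh_mul_I, sinh_mul_I]
  push_cast
  ring

lemma re_mk' (x y : ℝ) : ((x : ℂ) + (y : ℂ) * I).re = x := by simp

lemma im_mk' (x y : ℝ) : ((x : ℂ) + (y : ℂ) * I).im = y := by simp

lemma cz_re (a t₀ U : ℝ) (s : ℂ) : (cz a t₀ U s).re =
    Real.cosh (Real.pi * (s.re - a) / U) * Real.cos (Real.pi * (s.im - t₀) / U) := by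
  rw [cz_eq, re_mk']

lemma cz_im (a t₀ U : ℝ) (s : ℂ) : (cz a t₀ U s).im =
    Real.sinh (Real.pi * (s.re - a) / U) * Real.sin (Real.pi * (s.im - t₀) / U) := by
  rw [cz_eq, im_mk']

theorem pf_BLL : T_BLL := by
  intro a t₀ U ρ s hU ha ht hT hs h1 h2
  have hpi := Real.pi_pos
  unfold bl
  set x := Real.pi * (s.re - a) / U with hx
  set y := Real.pi * (s.im - t₀) / U with hy
  set x₀ := Real.pi * (ρ.re - a) / U with hx₀
  set y₀ := Real.pi * (ρ.im - t₀) / U with hy₀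
  have hx₀0 : 0 < x₀ := div_pos (mul_pos hpi (by linarith)) hU
  have hxx : x₀ < x := by
    rw [hx, hx₀]
    exact div_lt_div_of_pos_right (mul_lt_mul_of_pos_left (by linarith) hpi) hU
  have hy₀0 : 0 < y₀ := div_pos (mul_pos hpi (by linarith)) hU
  have hy₀1 : y₀ < Real.pi := by
    rw [hy₀, div_lt_iff₀ hU]
    exact mul_lt_mul_of_pos_left (by linarith) hpi
  have hy0 : 0 ≤ y := div_nonneg (mul_nonneg hpi.le (by linarith)) hU.le
  have hy1 : y ≤ Real.pi := by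
    rw [hy, div_le_iff₀ hU]
    exact mul_le_mul_of_nonneg_left (by linarith) hpi.le
  have hsin₀ : 0 < Real.sin y₀ := Real.sin_pos_of_pos_of_lt_pi hy₀0 hy₀1
  have hsin : 0 ≤ Real.sin y := Real.sin_nonneg_of_nonneg_of_le_pi hy0 hy1
  have hsh₀ : 0 < Real.sinh x₀ := Real.sinh_pos_iff.2 hx₀0
  have hsh : Real.sinh x₀ < Real.sinh x := Real.sinh_lt_sinh.2 hxx
  apply slit_of
  · rw [cz_im]
    exact mul_pos hsh₀ hsin₀
  · rw [cz_im]
    exact mul_nonneg (hsh₀.trans hsh).le hsin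
  · rw [cz_re, cz_re, cz_im, cz_im]
    intro h
    -- `cosh x cos y = cosh x₀ cos y₀`
    have hch : Real.cosh x₀ < Real.cosh x := by
      rw [Real.cosh_lt_cosh, abs_of_pos hx₀0, abs_of_pos (hx₀0.trans hxx)]
      exact hxx
    have hch₀ : 0 < Real.cosh x₀ := Real.cosh_pos x₀
    have hcos : Real.cos y ^ 2 ≤ Real.cos y₀ ^ 2 := by
      have h3 : Real.cosh x ^ 2 * Real.cos y ^ 2 = Real.cosh x₀ ^ 2 * Real.cos y₀ ^ 2 := by
        rw [← mul_pow, ← mul_pow, h]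
      have h4 : Real.cosh x₀ ^ 2 ≤ Real.cosh x ^ 2 := by gcongr
      have h5 : 0 < Real.cosh x ^ 2 := by positivity
      by_contra h6
      push Not at h6
      have h7 : Real.cosh x ^ 2 * Real.cos y₀ ^ 2 < Real.cosh x ^ 2 * Real.cos y ^ 2 :=
        mul_lt_mul_of_pos_left h6 h5
      have h8 : Real.cosh x₀ ^ 2 * Real.cos y₀ ^ 2 ≤ Real.cosh x ^ 2 * Real.cos y₀ ^ 2 :=
        mul_le_mul_of_nonneg_right h4 (sq_nonneg _)
      linarith
    have hsin2 : Real.sin y₀ ≤ Real.sin y := by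
      have h3 := Real.sin_sq_add_cos_sq y
      have h4 := Real.sin_sq_add_cos_sq y₀
      have h5 : Real.sin y₀ ^ 2 ≤ Real.sin y ^ 2 := by linarith
      exact (sq_le_sq₀ hsin₀.le hsin).1 h5
    calc Real.sinh x₀ * Real.sin y₀ < Real.sinh x * Real.sin y₀ :=
          mul_lt_mul_of_pos_right hsh hsin₀
      _ ≤ Real.sinh x * Real.sin y := mul_le_mul_of_nonneg_left hsin2 (hsh₀.trans hsh).le

end Pool.Agent.H75.LEV
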