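import Pool.Agent.H31.LEV.Targets

/-!
# The average of the integrals over the family (row JAV of the project LEV)
-/

set_option autoImplicit false

open Complex Filter Topology Set

namespace Pool.Agent.H75.LEV

open Pool.Agent.H31.LEV

lemma pt_re (x t : ℝ) : (pt x t).re = x := by
  unfold pt
  simp

lemma pt_im (x t : ℝ) : (pt x t).im = t := by
  unfold pt
  simp

lemma continuous_pt {X : Type} [TopologicalSpace X] {f g : X → ℝ} (hf : Continuous f)
    (hg : Continuous g) : Continuous (fun z => pt (f z) (g z)) := by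
  unfold pt
  fun_prop

lemma integral_sin_third : ∫ t in (0 : ℝ)..3, Real.sin (Real.pi * t / 3) = 6 / Real.pi := by
  have h1 : (fun t : ℝ => Real.sin (Real.pi * t / 3)) =
      fun t : ℝ => Real.sin ((Real.pi / 3) * t) := by
    funext t
    congr 1
    ring
  rw [h1, intervalIntegral.integral_comp_mul_left (fun x => Real.sin x)
    (by positivity : Real.pi / 3 ≠ 0), integral_sin]
  have h2 : Real.pi / 3 * 3 = Real.pi := by ring
  rw [h2, mul_zero, Real.cos_zero, Real.cos_pi, smul_eq_mul]
  field_simp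
  norm_num

/-- the logarithm is continuous along a path without zeros -/
lemma cont_log {F : ℂ → ℂ} {V : Set ℂ} (hF : DifferentiableOn ℂ F V)
    {p : ℝ → ℂ} (hp : Continuous p) {S : Set ℝ} (hS : ∀ t ∈ S, p t ∈ V)
    (h0 : ∀ t ∈ S, F (p t) ≠ 0) : ContinuousOn (fun t => Real.log ‖F (p t)‖) S := by
  have h1 : ContinuousOn (fun t => F (p t)) S :=
    hF.continuousOn.comp hp.continuousOn hS
  exact h1.norm.log fun t ht => norm_ne_zero_iff.2 (h0 t ht)

theorem pf_JAV (hJLG : T_JLG) : T_JAV := by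
  refine ⟨4 * Real.sinh Real.pi, by positivity, ?_⟩
  intro X _ F V a t₀ ε C₁ C₂ ha ha2 hε hε1 haε hC₁ hC₂ hV hR hF hL0 hH0 hL hH hH2
  have hpi := Real.pi_pos
  have hsh : 0 < Real.sinh Real.pi := Real.sinh_pos_iff.2 hpi
  set n : ℝ := (Fintype.card X : ℝ) with hn
  have hn0 : 0 ≤ n := Nat.cast_nonneg _
  have hlog2 : 0 ≤ Real.log C₂ := Real.log_nonneg hC₂
  -- points
  have hmemL : ∀ t : ℝ, 0 ≤ t → t ≤ 3 → pt a (t₀ + t) ∈ V := by
    intro t h1 h2
    apply hR
    refine ⟨?_, ?_, ?_, ?_⟩
    · rw [pt_re]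
    · rw [pt_re]
      linarith
    · rw [pt_im]
      linarith
    · rw [pt_im]
      linarith
  have hmemH : ∀ x : ℝ, a ≤ x → x ≤ 3 → pt x t₀ ∈ V ∧ pt x (t₀ + 3) ∈ V := by
    intro x h1 h2
    constructor
    · apply hR
      refine ⟨?_, ?_, ?_, ?_⟩
      · rw [pt_re]
        exact h1
      · rw [pt_re]
        exact h2
      · rw [pt_im]
      · rw [pt_im]
        linarith
    · apply hR
      refine ⟨?_, ?_, ?_, ?_⟩
      · rw [pt_re]
        exact h1
      · rw [pt_re]
        exact h2
      · rw [pt_im]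
        linarith
      · rw [pt_im]
  -- continuity
  have hcL : ∀ i, ContinuousOn (fun t => Real.log ‖F i (pt a (t₀ + t))‖ *
      Real.sin (Real.pi * t / 3)) (uIcc 0 3) := by
    intro i
    rw [uIcc_of_le (by norm_num)]
    refine (cont_log (hF i) (continuous_pt continuous_const (by fun_prop))
      (fun t ht => hmemL t ht.1 ht.2) fun t ht => ?_).mul (by fun_prop)
    exact hL0 i _ (by linarith [ht.1]) (by linarith [ht.2])
  have hcH : ∀ i, ContinuousOn (fun x => (Real.log ‖F i (pt x t₀)‖ +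
      Real.log ‖F i (pt x (t₀ + 3))‖) * Real.sinh (Real.pi * (x - a) / 3)) (Icc a 3) := by
    intro i
    refine ((cont_log (hF i) (continuous_pt continuous_id continuous_const)
      (fun x hx => (hmemH x hx.1 hx.2).1) fun x hx => (hH0 i x hx.1 hx.2).1).add
      (cont_log (hF i) (continuous_pt continuous_id continuous_const)
      (fun x hx => (hmemH x hx.1 hx.2).2) fun x hx => (hH0 i x hx.1 hx.2).2)).mul ?_
    exact (Real.continuous_sinh.comp (by fun_prop)).continuousOn
  -- the left side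
  have hleft : ∑ i, ∫ t in (0 : ℝ)..3, Real.log ‖F i (pt a (t₀ + t))‖ *
      Real.sin (Real.pi * t / 3) ≤ n * (3 / Real.pi * Real.log C₁) := by
    rw [← intervalIntegral.integral_finsetSum (fun i _ => (hcL i).intervalIntegrable)]
    have h1 : ∫ t in (0 : ℝ)..3, ∑ i, Real.log ‖F i (pt a (t₀ + t))‖ *
        Real.sin (Real.pi * t / 3) ≤
        ∫ t in (0 : ℝ)..3, (n * (Real.log C₁ / 2)) * Real.sin (Real.pi * t / 3) := by
      apply intervalIntegral.integral_mono_on (by norm_num)
      · exact (continuousOn_finsetSum _ fun i _ => hcL i).intervalIntegrable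
      · exact Continuous.intervalIntegrable (by fun_prop) _ _
      · intro t ht
        rw [← Finset.sum_mul]
        apply mul_le_mul_of_nonneg_right
        · exact hJLG X (fun i => F i (pt a (t₀ + t))) C₁ hC₁
            (fun i => hL0 i _ (by linarith [ht.1]) (by linarith [ht.2]))
            (hL _ (by linarith [ht.1]) (by linarith [ht.2]))
        · apply Real.sin_nonneg_of_nonneg_of_le_pi
          · have := ht.1
            positivity
          · rw [div_le_iff₀ (by norm_num)]
            nlinarith [ht.2]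
    refine h1.trans (le_of_eq ?_)
    rw [intervalIntegral.integral_const_mul, integral_sin_third]
    field_simp
    ring
  -- the horizontal sides
  have hG : ∀ x, a ≤ x → x ≤ 3 → ∀ C : ℝ, 1 ≤ C →
      (∀ t ∈ ({t₀, t₀ + 3} : Set ℝ), ∑ i, ‖F i (pt x t)‖ ^ 2 ≤ C * Fintype.card X) →
      ∑ i, (Real.log ‖F i (pt x t₀)‖ + Real.log ‖F i (pt x (t₀ + 3))‖) ≤ n * Real.log C := by
    intro x h1 h2 C hC h3
    rw [Finset.sum_add_distrib]
    have h4 := hJLG X (fun i => F i (pt x t₀)) C hC (fun i => (hH0 i x h1 h2).1)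
      (h3 t₀ (by simp))
    have h5 := hJLG X (fun i => F i (pt x (t₀ + 3))) C hC (fun i => (hH0 i x h1 h2).2)
      (h3 (t₀ + 3) (by simp))
    calc _ ≤ n * (Real.log C / 2) + n * (Real.log C / 2) := add_le_add h4 h5
      _ = n * Real.log C := by ring
  have hsinh : ∀ x, a ≤ x → x ≤ 3 → 0 ≤ Real.sinh (Real.pi * (x - a) / 3) ∧
      Real.sinh (Real.pi * (x - a) / 3) ≤ Real.sinh Real.pi := by
    intro x h1 h2
    constructor
    · rw [Real.sinh_nonneg_iff]
      exact div_nonneg (mul_nonneg hpi.le (by linarith)) (by norm_num)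
    · rw [Real.sinh_le_sinh, div_le_iff₀ (by norm_num)]
      exact mul_le_mul_of_nonneg_left (by linarith) hpi.le
  set b : ℝ := 1 / 2 + ε with hb
  have hab : a ≤ b := by linarith
  have hb3 : b ≤ 3 := by linarith
  have hint : ∀ c d, a ≤ c → c ≤ d → d ≤ 3 → ∀ M : ℝ, 0 ≤ M →
      (∀ x, c ≤ x → x ≤ d → ∑ i, (Real.log ‖F i (pt x t₀)‖ +
        Real.log ‖F i (pt x (t₀ + 3))‖) ≤ M) →
      ∫ x in c..d, ∑ i, (Real.log ‖F i (pt x t₀)‖ + Real.log ‖F i (pt x (t₀ + 3))‖) *
        Real.sinh (Real.pi * (x - a) / 3) ≤ (d - c) * (M * Real.sinh Real.pi) := by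
    intro c d h1 h2 h3 M hM h4
    have h5 : ∫ x in c..d, ∑ i, (Real.log ‖F i (pt x t₀)‖ +
        Real.log ‖F i (pt x (t₀ + 3))‖) * Real.sinh (Real.pi * (x - a) / 3) ≤
        ∫ x in c..d, M * Real.sinh Real.pi := by
      apply intervalIntegral.integral_mono_on h2
      · apply ContinuousOn.intervalIntegrable
        rw [uIcc_of_le h2]
        exact continuousOn_finsetSum _ fun i _ => (hcH i).mono (Icc_subset_Icc h1 h3)
      · exact Continuous.intervalIntegrable continuous_const _ _
      · intro x hx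
        rw [← Finset.sum_mul]
        obtain ⟨h6, h7⟩ := hsinh x (h1.trans hx.1) (hx.2.trans h3)
        calc _ ≤ M * Real.sinh (Real.pi * (x - a) / 3) :=
              mul_le_mul_of_nonneg_right (h4 x hx.1 hx.2) h6
          _ ≤ M * Real.sinh Real.pi := mul_le_mul_of_nonneg_left h7 hM
    refine h5.trans (le_of_eq ?_)
    rw [intervalIntegral.integral_const, smul_eq_mul]
  have hright : ∑ i, ∫ x in a..3, (Real.log ‖F i (pt x t₀)‖ +
      Real.log ‖F i (pt x (t₀ + 3))‖) * Real.sinh (Real.pi * (x - a) / 3) ≤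
      n * (4 * Real.sinh Real.pi * ε * (1 + Real.log C₂)) := by
    rw [← intervalIntegral.integral_finsetSum (fun i _ => by
      apply ContinuousOn.intervalIntegrable
      rw [uIcc_of_le (hab.trans hb3)]
      exact hcH i)]
    have hii : ∀ c d, a ≤ c → c ≤ d → d ≤ 3 → IntervalIntegrable
        (fun x => ∑ i, (Real.log ‖F i (pt x t₀)‖ + Real.log ‖F i (pt x (t₀ + 3))‖) *
          Real.sinh (Real.pi * (x - a) / 3)) MeasureTheory.volume c d := by
      intro c d h1 h2 h3
      apply ContinuousOn.intervalIntegrable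
      rw [uIcc_of_le h2]
      exact continuousOn_finsetSum _ fun i _ => (hcH i).mono (Icc_subset_Icc h1 h3)
    rw [← intervalIntegral.integral_add_adjacent_intervals (hii a b le_rfl hab hb3)
      (hii b 3 hab hb3 le_rfl)]
    have h1 := hint a b le_rfl hab hb3 (n * Real.log C₂) (mul_nonneg hn0 hlog2)
      fun x hx1 hx2 => hG x hx1 (hx2.trans hb3) C₂ hC₂ (hH x hx1 (hx2.trans hb3))
    have h2 := hint b 3 hab hb3 le_rfl (n * Real.log (1 + ε))
      (mul_nonneg hn0 (Real.log_nonneg (by linarith)))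
      fun x hx1 hx2 => hG x (hab.trans hx1) hx2 (1 + ε) (by linarith) (hH2 x hx1 hx2)
    have h3 : Real.log (1 + ε) ≤ ε := by
      have := Real.log_le_sub_one_of_pos (by linarith : 0 < 1 + ε)
      linarith
    have h4 : (b - a) * (n * Real.log C₂ * Real.sinh Real.pi) ≤
        (2 * ε) * (n * Real.log C₂ * Real.sinh Real.pi) :=
      mul_le_mul_of_nonneg_right (by linarith)
        (mul_nonneg (mul_nonneg hn0 hlog2) hsh.le)
    have h5 : (3 - b) * (n * Real.log (1 + ε) * Real.sinh Real.pi) ≤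
        3 * (n * ε * Real.sinh Real.pi) := by
      apply mul_le_mul (by linarith) _ _ (by norm_num)
      · exact mul_le_mul_of_nonneg_right (mul_le_mul_of_nonneg_left h3 hn0) hsh.le
      · exact mul_nonneg (mul_nonneg hn0 (Real.log_nonneg (by linarith))) hsh.le
    have h6 : 0 ≤ n * ε * Real.sinh Real.pi := mul_nonneg (mul_nonneg hn0 hε.le) hsh.le
    have h7 : 0 ≤ n * ε * Real.sinh Real.pi * Real.log C₂ := mul_nonneg h6 hlog2
    have h8 : n * (4 * Real.sinh Real.pi * ε * (1 + Real.log C₂)) =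
        4 * (n * ε * Real.sinh Real.pi) + 4 * (n * ε * Real.sinh Real.pi * Real.log C₂) := by
      ring
    have h9 : (2 * ε) * (n * Real.log C₂ * Real.sinh Real.pi) =
        2 * (n * ε * Real.sinh Real.pi * Real.log C₂) := by ring
    rw [h8]
    linarith
  unfold Ja
  rw [Finset.sum_add_distrib]
  calc _ ≤ n * (3 / Real.pi * Real.log C₁) +
        n * (4 * Real.sinh Real.pi * ε * (1 + Real.log C₂)) := add_le_add hleft hright
    _ = _ := by ring

end Pool.Agent.H75.LEV
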