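import Pool.Agent.H31.LEV.Targets

/-!
# Sums of sines over a grid (row SIN of the project LEV)
-/

set_option autoImplicit false

open Complex Filter Topology Set

namespace Pool.Agent.H75.LEV

open Pool.Agent.H31.LEV

theorem pf_SIN : T_SIN := by
  intro K x hK hx0 hx1
  have hKR : (2 : ℝ) ≤ K := by exact_mod_cast hK
  have hK0 : (0 : ℝ) < K := by linarith
  have hpi := Real.pi_pos
  have hs : 0 < Real.sin (Real.pi / (2 * K)) := by
    apply Real.sin_pos_of_pos_of_lt_pi (by positivity)
    rw [div_lt_iff₀ (by positivity)]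
    nlinarith
  rw [div_le_iff₀ hs]
  set f : ℕ → ℝ := fun i => Real.cos (Real.pi * (x + i - 1 / 2) / K) with hf
  have hterm : ∀ i : ℕ, Real.sin (Real.pi * (x + i) / K) * Real.sin (Real.pi / (2 * K)) =
      (f i - f (i + 1)) / 2 := by
    intro i
    have h1 : Real.pi * (x + i - 1 / 2) / K =
        Real.pi * (x + i) / K - Real.pi / (2 * K) := by
      field_simp
    have h2 : Real.pi * (x + ((i + 1 : ℕ) : ℝ) - 1 / 2) / K =
        Real.pi * (x + i) / K + Real.pi / (2 * K) := by
      push_cast
      field_simp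
      ring
    simp only [hf]
    rw [h1, h2, Real.cos_sub, Real.cos_add]
    ring
  rw [Finset.sum_mul, Finset.sum_congr rfl (fun i _ => hterm i), ← Finset.sum_div,
    Finset.sum_range_sub']
  have hfK : f K = -f 0 := by
    simp only [hf]
    have h1 : Real.pi * (x + (K : ℝ) - 1 / 2) / K =
        Real.pi * (x + ((0 : ℕ) : ℝ) - 1 / 2) / K + Real.pi := by
      push_cast
      field_simp
      ring
    rw [h1, Real.cos_add_pi]
  rw [hfK]
  have h3 : (f 0 - -f 0) / 2 = f 0 := by ring
  rw [h3]
  simp only [hf]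
  push_cast
  have h4 : Real.pi * (x + 0 - 1 / 2) / K = Real.pi * (x - 1 / 2) / K := by ring
  rw [h4, ← Real.cos_abs (Real.pi * (x - 1 / 2) / K)]
  apply Real.cos_le_cos_of_nonneg_of_le_pi (abs_nonneg _)
  · rw [div_le_iff₀ (by positivity)]
    nlinarith
  · rw [abs_div, abs_mul, abs_of_pos hpi, abs_of_pos hK0, div_le_div_iff₀ hK0 (by positivity)]
    have h5 : |x - 1 / 2| ≤ 1 / 2 := by
      rw [abs_le]
      constructor <;> linarith
    calc Real.pi * |x - 1 / 2| * (2 * K) ≤ Real.pi * (1 / 2) * (2 * K) := by gcongr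
      _ = Real.pi * K := by ring

end Pool.Agent.H75.LEV
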